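import Pool.Agent.PC.Defs2

set_option autoImplicit false

namespace Pool.Agent.PC

/-! ### Auxiliary facts -/

theorem alg1_sum_ext (f : ℕ → ℕ) (a M : ℕ) (h : ∀ i, a ≤ i → f i = 0) (hM : a ≤ M) :
    ∑ i ∈ Finset.range M, f i = ∑ i ∈ Finset.range a, f i := by
  symm
  apply Finset.sum_subset
  · intro i hi
    rw [Finset.mem_range] at *
    omega
  · intro i _ hi
    rw [Finset.mem_range] at hi
    exact h i (by omega)

theorem alg1_aN_succ_zero (n : ℕ) : aN (n + 1) 0 = 0 := by
  simp [aN]

theorem alg1_aN_zero_succ (k : ℕ) : aN 0 (k + 1) = 0 := by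
  simp [aN]

theorem alg1_aN_zero_zero : aN 0 0 = 1 := by
  simp [aN]

theorem alg1_aN_rec (n k : ℕ) :
    aN (n + 1) (k + 1) = aN n k + (k + 1) * ∑ j ∈ Finset.Icc (k + 1) n, aN n j := by
  simp [aN]

theorem alg1_aN_zero (n : ℕ) : ∀ k, n < k → aN n k = 0 := by
  induction n with
  | zero =>
    intro k hk
    obtain ⟨k', rfl⟩ : ∃ k', k = k' + 1 := ⟨k - 1, by omega⟩
    exact alg1_aN_zero_succ k'
  | succ n ih =>
    intro k hk
    obtain ⟨k', rfl⟩ : ∃ k', k = k' + 1 := ⟨k - 1, by omega⟩
    rw [alg1_aN_rec, ih k' (by omega), Finset.Icc_eq_empty (by omega)]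
    simp

theorem alg1_aN_rec' (n k M : ℕ) (hM : n ≤ k + M) :
    aN (n + 1) (k + 1) = aN n k + (k + 1) * ∑ t ∈ Finset.range M, aN n (k + 1 + t) := by
  rw [alg1_aN_rec]
  congr 2
  have h1 : Finset.Icc (k + 1) n = Finset.Ico (k + 1) (n + 1) := by
    ext x; simp only [Finset.mem_Icc, Finset.mem_Ico]; omega
  rw [h1, Finset.sum_Ico_eq_sum_range]
  symm
  apply alg1_sum_ext
  · intro i hi
    apply alg1_aN_zero
    omega
  · omega

theorem alg1_st_zero (k : ℕ) : st 0 k = 1 := by simp [st]

theorem alg1_st_succ (q k : ℕ) : st (q + 1) k = ∑ j ∈ Finset.range (k + 1), j * st q j := by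
  simp [st]

theorem alg1_st_succ_zero (q : ℕ) : st (q + 1) 0 = 0 := by
  simp [st]

/-- summation over `j` and `t` of `f j * g (j+t)` -/
theorem alg1_conv (N : ℕ) (f g : ℕ → ℕ) (hg : ∀ r, N ≤ r → g r = 0) :
    ∑ j ∈ Finset.range N, f j * ∑ t ∈ Finset.range N, g (j + t) =
      ∑ r ∈ Finset.range N, (∑ j ∈ Finset.range (r + 1), f j) * g r := by
  have h1 : ∀ j ∈ Finset.range N, f j * ∑ t ∈ Finset.range N, g (j + t) =
      ∑ r ∈ Finset.Ico j N, f j * g r := by
    intro j hj
    rw [Finset.mem_range] at hj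
    rw [← Finset.mul_sum]
    congr 1
    rw [Finset.sum_Ico_eq_sum_range]
    apply alg1_sum_ext
    · intro i hi
      apply hg
      omega
    · omega
  rw [Finset.sum_congr rfl h1]
  have h2 : ∀ r ∈ Finset.range N, (∑ j ∈ Finset.range (r + 1), f j) * g r =
      ∑ j ∈ Finset.range (r + 1), f j * g r := by
    intro r _
    rw [Finset.sum_mul]
  rw [Finset.sum_congr rfl h2]
  apply Finset.sum_comm'
  intro x y
  simp only [Finset.mem_range, Finset.mem_Ico]
  omega

/-- the quantities on the right side of `xi` -/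
def alg1X (s m k : ℕ) : ℕ := ∑ j ∈ Finset.range (m + 1), st s j * aN m (j + k)

theorem alg1X_ext (s m k M : ℕ) (hM : m + 1 ≤ M) :
    alg1X s m k = ∑ j ∈ Finset.range M, st s j * aN m (j + k) := by
  unfold alg1X
  symm
  apply alg1_sum_ext
  · intro i hi
    rw [alg1_aN_zero m (i + k) (by omega), mul_zero]
  · exact hM

theorem alg1_Om_pos (s b p : ℕ) (hp : p ≠ 0) :
    Om s b p = ∑ u ∈ Finset.range (p + 1), eta p (s + u) * (u + b - 1).choose u := by
  unfold Om
  rw [if_neg hp]

theorem alg1_Om_zero (s b : ℕ) : Om s b 0 = if s = 0 then 1 else 0 := by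
  unfold Om
  rw [if_pos rfl]

theorem alg1_eta_zero (n s : ℕ) (h : n < s) : eta n s = 0 := by
  unfold eta
  rw [if_neg (by omega)]

theorem alg1_eta_self (p : ℕ) (h : p ≠ 0) : eta p p = 0 := by
  unfold eta
  rw [if_pos le_rfl, Nat.sub_self]
  obtain ⟨q, rfl⟩ : ∃ q, p = q + 1 := ⟨p - 1, by omega⟩
  simp [alg1_st_succ_zero]

/-- Pascal -/
theorem alg1_pascal (s b p : ℕ) : Om s (b + 1) p = Om s b p + Om (s + 1) (b + 1) p := by
  by_cases hp : p = 0
  · subst hp
    rw [alg1_Om_zero, alg1_Om_zero, alg1_Om_zero]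
    simp
  · rw [alg1_Om_pos _ _ _ hp, alg1_Om_pos _ _ _ hp, alg1_Om_pos _ _ _ hp]
    rw [Finset.sum_range_succ' (fun u => eta p (s + u) * (u + (b + 1) - 1).choose u),
      Finset.sum_range_succ' (fun u => eta p (s + u) * (u + b - 1).choose u),
      Finset.sum_range_succ (fun u => eta p (s + 1 + u) * (u + (b + 1) - 1).choose u)]
    rw [alg1_eta_zero p (s + 1 + p) (by omega), zero_mul, add_zero]
    have h1 : ∀ u ∈ Finset.range p, eta p (s + (u + 1)) * (u + 1 + (b + 1) - 1).choose (u + 1) =
        eta p (s + (u + 1)) * (u + 1 + b - 1).choose (u + 1) +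
          eta p (s + 1 + u) * (u + (b + 1) - 1).choose u := by
      intro u _
      have e1 : u + 1 + (b + 1) - 1 = (u + b) + 1 := by omega
      have e2 : u + 1 + b - 1 = u + b := by omega
      have e3 : u + (b + 1) - 1 = u + b := by omega
      have e4 : s + 1 + u = s + (u + 1) := by ring
      rw [e1, e2, e3, e4, Nat.choose_succ_succ]
      ring
    rw [Finset.sum_congr rfl h1, Finset.sum_add_distrib]
    simp only [Nat.choose_zero_right]
    ring

theorem alg1_Om_b0 (s p : ℕ) (hp : p ≠ 0) : Om s 0 p = eta p s := by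
  rw [alg1_Om_pos _ _ _ hp, Finset.sum_range_succ']
  have h1 : ∀ u ∈ Finset.range p, eta p (s + (u + 1)) * (u + 1 + 0 - 1).choose (u + 1) = 0 := by
    intro u _
    have e1 : u + 1 + 0 - 1 = u := by omega
    rw [e1, Nat.choose_succ_self, mul_zero]
  rw [Finset.sum_congr rfl h1]
  simp

theorem alg1_Om_top (s b : ℕ) : Om (s + 1) b s = 0 := by
  by_cases hs : s = 0
  · subst hs
    rw [alg1_Om_zero]
    simp
  · rw [alg1_Om_pos _ _ _ hs]
    apply Finset.sum_eq_zero
    intro u _
    rw [alg1_eta_zero s (s + 1 + u) (by omega), zero_mul]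

/-- the recursion for the right side of `xi` -/
theorem alg1X_rec (s m k : ℕ) : alg1X s (m + 1) (k + 1) =
    alg1X s m k + (k + 1) * ∑ t ∈ Finset.range (m + 2), alg1X s m (k + 1 + t) +
      alg1X (s + 1) m (k + 1) := by
  unfold alg1X
  have h1 : ∀ j ∈ Finset.range (m + 1 + 1), st s j * aN (m + 1) (j + (k + 1)) =
      st s j * aN m (j + k) + (k + 1) * (∑ t ∈ Finset.range (m + 2), st s j * aN m (j + (k + 1 + t))) +
        (j * st s j) * ∑ t ∈ Finset.range (m + 2), aN m (j + t + (k + 1)) := by
    intro j _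
    rw [← add_assoc j k 1, alg1_aN_rec' m (j + k) (m + 2) (by omega), ← Finset.mul_sum]
    have e1 : ∑ t ∈ Finset.range (m + 2), aN m (j + k + 1 + t) =
        ∑ t ∈ Finset.range (m + 2), aN m (j + (k + 1 + t)) :=
      Finset.sum_congr rfl fun t _ => by congr 1; ring
    have e2 : ∑ t ∈ Finset.range (m + 2), aN m (j + t + (k + 1)) =
        ∑ t ∈ Finset.range (m + 2), aN m (j + (k + 1 + t)) :=
      Finset.sum_congr rfl fun t _ => by congr 1; ring
    rw [e1, e2]
    ring
  rw [Finset.sum_congr rfl h1, Finset.sum_add_distrib, Finset.sum_add_distrib]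
  have h2 : ∑ j ∈ Finset.range (m + 1 + 1), st s j * aN m (j + k) =
      ∑ j ∈ Finset.range (m + 1), st s j * aN m (j + k) := by
    apply alg1_sum_ext
    · intro i hi
      rw [alg1_aN_zero m (i + k) (by omega), mul_zero]
    · omega
  have h3 : ∑ j ∈ Finset.range (m + 1 + 1), (k + 1) * (∑ t ∈ Finset.range (m + 2),
      st s j * aN m (j + (k + 1 + t))) = (k + 1) * ∑ t ∈ Finset.range (m + 2),
        ∑ j ∈ Finset.range (m + 1), st s j * aN m (j + (k + 1 + t)) := by
    rw [← Finset.mul_sum, Finset.sum_comm]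
    congr 1
    apply Finset.sum_congr rfl
    intro t _
    apply alg1_sum_ext
    · intro i hi
      rw [alg1_aN_zero m (i + (k + 1 + t)) (by omega), mul_zero]
    · omega
  have h4 : ∑ j ∈ Finset.range (m + 1 + 1), (j * st s j) * ∑ t ∈ Finset.range (m + 2),
      aN m (j + t + (k + 1)) = ∑ j ∈ Finset.range (m + 1), st (s + 1) j * aN m (j + (k + 1)) := by
    have := alg1_conv (m + 2) (fun j => j * st s j) (fun r => aN m (r + (k + 1)))
      (fun r hr => alg1_aN_zero m _ (by omega))
    rw [show m + 1 + 1 = m + 2 from rfl, this]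
    have h5 : ∑ r ∈ Finset.range (m + 2), (∑ j ∈ Finset.range (r + 1), j * st s j) *
        aN m (r + (k + 1)) = ∑ r ∈ Finset.range (m + 2), st (s + 1) r * aN m (r + (k + 1)) := by
      apply Finset.sum_congr rfl
      intro r _
      rw [alg1_st_succ]
    rw [h5]
    apply alg1_sum_ext
    · intro i hi
      rw [alg1_aN_zero m (i + (k + 1)) (by omega), mul_zero]
    · omega
  rw [h2, h3, h4]

theorem alg1_xi (n : ℕ) : ∀ s k : ℕ,
    ∑ b ∈ Finset.range (n + 1), Om s b (n - b + s) * aN b k = alg1X s n k := by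
  induction n with
  | zero =>
    intro s k
    rw [Finset.sum_range_one]
    unfold alg1X
    rw [Finset.sum_range_one]
    rw [Nat.sub_self, zero_add, zero_add]
    cases k with
    | zero =>
      rw [alg1_aN_zero_zero, mul_one, mul_one]
      cases s with
      | zero => rw [alg1_Om_zero, alg1_st_zero]; simp
      | succ s =>
        rw [alg1_Om_b0 _ _ (by omega), alg1_eta_self _ (by omega), alg1_st_succ_zero]
    | succ k => rw [alg1_aN_zero_succ, mul_zero, mul_zero]
  | succ m ih =>
    intro s k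
    cases k with
    | zero =>
      rw [Finset.sum_range_succ']
      have h1 : ∀ b ∈ Finset.range (m + 1), Om s (b + 1) (m + 1 - (b + 1) + s) * aN (b + 1) 0 = 0 := by
        intro b _
        rw [alg1_aN_succ_zero, mul_zero]
      rw [Finset.sum_congr rfl h1, alg1_aN_zero_zero, alg1_Om_b0 _ _ (by omega)]
      simp only [Finset.sum_const_zero, zero_add, mul_one, Nat.sub_zero]
      unfold eta alg1X
      rw [if_pos (by omega), show m + 1 + s - s = m + 1 by omega]
      simp
    | succ k =>
      rw [alg1X_rec, Finset.sum_range_succ', alg1_aN_zero_succ, mul_zero, add_zero]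
      have h1 : ∀ b ∈ Finset.range (m + 1), Om s (b + 1) (m + 1 - (b + 1) + s) * aN (b + 1) (k + 1) =
          (Om s b (m - b + s) * aN b k + (k + 1) * ∑ t ∈ Finset.range (m + 2),
            Om s b (m - b + s) * aN b (k + 1 + t)) +
            Om (s + 1) (b + 1) (m - b + s) * aN (b + 1) (k + 1) := by
        intro b hb
        rw [Finset.mem_range] at hb
        rw [show m + 1 - (b + 1) = m - b by omega, alg1_pascal, add_mul, ← Finset.mul_sum]
        congr 1
        rw [alg1_aN_rec' b k (m + 2) (by omega)]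
        ring
      rw [Finset.sum_congr rfl h1, Finset.sum_add_distrib, Finset.sum_add_distrib, ih s k,
        ← Finset.mul_sum, Finset.sum_comm]
      congr 1
      · congr 2
        apply Finset.sum_congr rfl
        intro t _
        exact ih s (k + 1 + t)
      · rw [← ih (s + 1) (k + 1), Finset.sum_range_succ, Finset.sum_range_succ' (fun b =>
          Om (s + 1) b (m - b + (s + 1)) * aN b (k + 1)), alg1_aN_zero_succ, mul_zero, add_zero]
        rw [Nat.sub_self, zero_add, alg1_Om_top, zero_mul, add_zero]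
        apply Finset.sum_congr rfl
        intro b hb
        rw [Finset.mem_range] at hb
        rw [show m - (b + 1) + (s + 1) = m - b + s by omega]

theorem xi (n s k : ℕ) :
    ∑ b ∈ Finset.range (n + 1), Om s b (n - b + s) * aN b k =
      ∑ j ∈ Finset.range (n + 1), st s j * aN n (j + k) := alg1_xi n s k

theorem alg1_gam_succ (n s : ℕ) (hn : n ≠ 0) : gam n (s + 1) = eta n s := by
  show (if n = 0 then 0 else eta n s) = eta n s
  rw [if_neg hn]

theorem alg1_W_succ (c p : ℕ) : W (c + 1) p + (if p = 0 then 1 else 0) = W c p + Om 0 (c + 1) p := by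
  by_cases hp : p = 0
  · subst hp
    rw [alg1_Om_zero]
    unfold W
    simp
  · rw [if_neg hp, add_zero, alg1_Om_pos _ _ _ hp]
    unfold W
    rw [Finset.sum_range_succ' (fun s => gam p s * (s + (c + 1) - 1).choose s),
      Finset.sum_range_succ' (fun s => gam p s * (s + c - 1).choose s),
      Finset.sum_range_succ (fun u => eta p (0 + u) * (u + (c + 1) - 1).choose u)]
    rw [zero_add p, alg1_eta_self p hp, zero_mul, add_zero]
    have h1 : ∀ s ∈ Finset.range p, gam p (s + 1) * (s + 1 + (c + 1) - 1).choose (s + 1) =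
        gam p (s + 1) * (s + 1 + c - 1).choose (s + 1) +
          eta p (0 + s) * (s + (c + 1) - 1).choose s := by
      intro s _
      have e1 : s + 1 + (c + 1) - 1 = (s + c) + 1 := by omega
      have e2 : s + 1 + c - 1 = s + c := by omega
      have e3 : s + (c + 1) - 1 = s + c := by omega
      rw [e1, e2, e3, zero_add, alg1_gam_succ p s hp, Nat.choose_succ_succ]
      ring
    rw [Finset.sum_congr rfl h1, Finset.sum_add_distrib]
    simp only [Nat.choose_zero_right]
    ring

theorem alg1_W_zero (n : ℕ) : W 0 n = tN n := by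
  unfold W
  rw [Finset.sum_range_succ']
  have h1 : ∀ s ∈ Finset.range n, gam n (s + 1) * (s + 1 + 0 - 1).choose (s + 1) = 0 := by
    intro s _
    rw [show s + 1 + 0 - 1 = s by omega, Nat.choose_succ_self, mul_zero]
  rw [Finset.sum_congr rfl h1]
  simp [gam]

theorem alg1_tN (n : ℕ) : aN (n + 1) 1 = tN n := by
  have h := alg1_aN_rec' n 0 n (by omega)
  rw [show (0 : ℕ) + 1 = 1 from rfl] at h
  rw [h]
  unfold tN
  rw [Finset.sum_range_succ', one_mul, add_comm]
  congr 1
  apply Finset.sum_congr rfl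
  intro t _
  rw [add_comm]

theorem alg_T (n k : ℕ) :
    aN (n + 1) (k + 1) = ∑ b ∈ Finset.range (n + 1), W b (n - b) * aN b k := by
  induction n generalizing k with
  | zero =>
    rw [Finset.sum_range_one]
    cases k with
    | zero => rw [alg1_aN_zero_zero, alg1_W_zero, mul_one, Nat.sub_self, alg1_tN]
    | succ k =>
      rw [alg1_aN_zero_succ, mul_zero]
      apply alg1_aN_zero
      omega
  | succ m ih =>
    cases k with
    | zero =>
      rw [Finset.sum_range_succ']
      have h1 : ∀ b ∈ Finset.range (m + 1), W (b + 1) (m + 1 - (b + 1)) * aN (b + 1) 0 = 0 := by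
        intro b _
        rw [alg1_aN_succ_zero, mul_zero]
      rw [Finset.sum_congr rfl h1, alg1_aN_zero_zero, alg1_W_zero]
      simp only [Finset.sum_const_zero, zero_add, mul_one, Nat.sub_zero]
      exact alg1_tN (m + 1)
    | succ k =>
      rw [Finset.sum_range_succ', alg1_aN_zero_succ, mul_zero, add_zero]
      -- add `aN (m+1) (k+1)` to both sides
      apply Nat.add_right_cancel (m := aN (m + 1) (k + 1))
      have h0 : aN (m + 1) (k + 1) = ∑ b ∈ Finset.range (m + 1),
          (if m - b = 0 then 1 else 0) * aN (b + 1) (k + 1) := by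
        rw [Finset.sum_range_succ]
        have h1 : ∀ b ∈ Finset.range m, (if m - b = 0 then 1 else 0) * aN (b + 1) (k + 1) = 0 := by
          intro b hb
          rw [Finset.mem_range] at hb
          rw [if_neg (by omega), zero_mul]
        rw [Finset.sum_congr rfl h1]
        simp
      have h2 : ∑ b ∈ Finset.range (m + 1), W (b + 1) (m + 1 - (b + 1)) * aN (b + 1) (k + 1) +
          aN (m + 1) (k + 1) = ∑ b ∈ Finset.range (m + 1), (W b (m - b) * aN b k +
            (k + 1) * ∑ t ∈ Finset.range (m + 2), W b (m - b) * aN b (k + 1 + t)) +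
          ∑ b ∈ Finset.range (m + 1), Om 0 (b + 1) (m - b) * aN (b + 1) (k + 1) := by
        rw [h0]
        rw [← Finset.sum_add_distrib, ← Finset.sum_add_distrib]
        apply Finset.sum_congr rfl
        intro b hb
        rw [Finset.mem_range] at hb
        rw [show m + 1 - (b + 1) = m - b by omega, ← add_mul, alg1_W_succ, add_mul,
          ← Finset.mul_sum]
        congr 1
        rw [alg1_aN_rec' b k (m + 2) (by omega)]
        ring
      rw [h2, Finset.sum_add_distrib, ← ih k, ← Finset.mul_sum, Finset.sum_comm]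
      have h3 : ∑ t ∈ Finset.range (m + 2), ∑ b ∈ Finset.range (m + 1),
          W b (m - b) * aN b (k + 1 + t) = ∑ t ∈ Finset.range (m + 2), aN (m + 1) (k + 1 + 1 + t) := by
        apply Finset.sum_congr rfl
        intro t _
        rw [← ih (k + 1 + t)]
        congr 1; ring
      have h4 : ∑ b ∈ Finset.range (m + 1), Om 0 (b + 1) (m - b) * aN (b + 1) (k + 1) =
          aN (m + 1) (k + 1) + ∑ t ∈ Finset.range (m + 2), aN (m + 1) (k + 1 + 1 + t) := by
        have h5 := xi (m + 1) 0 (k + 1)
        rw [Finset.sum_range_succ', alg1_aN_zero_succ, mul_zero, add_zero] at h5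
        have h6 : ∑ b ∈ Finset.range (m + 1), Om 0 (b + 1) (m - b) * aN (b + 1) (k + 1) =
            ∑ b ∈ Finset.range (m + 1), Om 0 (b + 1) (m + 1 - (b + 1) + 0) * aN (b + 1) (k + 1) := by
          apply Finset.sum_congr rfl
          intro b _
          rw [show m + 1 - (b + 1) + 0 = m - b by omega]
        rw [h6, h5, Finset.sum_range_succ']
        rw [add_comm, zero_add, alg1_st_zero, one_mul]
        congr 1
        rw [Finset.sum_range_succ (fun t => aN (m + 1) (k + 1 + 1 + t)),
          alg1_aN_zero (m + 1) (k + 1 + 1 + (m + 1)) (by omega), add_zero]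
        apply Finset.sum_congr rfl
        intro t _
        rw [alg1_st_zero, one_mul]
        congr 1; ring
      rw [h3, h4, alg1_aN_rec' (m + 1) (k + 1) (m + 2) (by omega)]
      ring

theorem alg_b1 (n i : ℕ) (hi : 1 ≤ i) (hin : i ≤ n) : gam n i = eta n i + eps n i := by
  obtain ⟨q, rfl⟩ : ∃ q, i = q + 1 := ⟨i - 1, by omega⟩
  obtain ⟨b, rfl⟩ : ∃ b, n = b + (q + 1) := ⟨n - (q + 1), by omega⟩
  rw [alg1_gam_succ _ _ (by omega)]
  unfold eta eps
  rw [if_pos (by omega), if_pos (by omega), show b + (q + 1) - q = b + 1 by omega,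
    show b + (q + 1) - (q + 1) = b by omega, show q + 1 - 1 = q by omega]
  rw [Finset.sum_range_succ', alg1_aN_succ_zero, mul_zero, add_zero]
  have h1 : ∀ j ∈ Finset.range (b + 1), st q (j + 1) * aN (b + 1) (j + 1) =
      st q (j + 1) * aN b j + ((j + 1) * st q (j + 1)) * ∑ t ∈ Finset.range (b + 2), aN b (j + 1 + t) := by
    intro j _
    rw [alg1_aN_rec' b j (b + 2) (by omega)]
    ring
  rw [Finset.sum_congr rfl h1, Finset.sum_add_distrib, add_comm]
  congr 1
  have h2 := alg1_conv (b + 2) (fun j => j * st q j) (fun r => aN b r)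
    (fun r hr => alg1_aN_zero b _ (by omega))
  rw [Finset.sum_range_succ' (fun j => j * st q j * ∑ t ∈ Finset.range (b + 2), aN b (j + t)),
    zero_mul, zero_mul, add_zero] at h2
  rw [h2]
  have h5 : ∑ r ∈ Finset.range (b + 2), (∑ j ∈ Finset.range (r + 1), j * st q j) *
      aN b r = ∑ r ∈ Finset.range (b + 2), st (q + 1) r * aN b r := by
    apply Finset.sum_congr rfl
    intro r _
    rw [alg1_st_succ]
  rw [h5]
  apply alg1_sum_ext
  · intro i hi
    rw [alg1_aN_zero b i (by omega), mul_zero]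
  · omega

theorem alg_b2 (n i : ℕ) (hi : 1 ≤ i) (hin : i ≤ n) :
    gam n i = ∑ p ∈ Finset.range (n - i + 1), W (n - i - p) p * eps (n - p) i := by
  obtain ⟨q, rfl⟩ : ∃ q, i = q + 1 := ⟨i - 1, by omega⟩
  obtain ⟨b, rfl⟩ : ∃ b, n = b + (q + 1) := ⟨n - (q + 1), by omega⟩
  rw [alg1_gam_succ _ _ (by omega)]
  rw [show b + (q + 1) - (q + 1) = b by omega]
  rw [← Finset.sum_range_reflect]
  have h1 : ∀ p ∈ Finset.range (b + 1), W (b - (b + 1 - 1 - p)) (b + 1 - 1 - p) *
      eps (b + (q + 1) - (b + 1 - 1 - p)) (q + 1) =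
      ∑ j ∈ Finset.range (b + 1), st q (j + 1) * (W p (b - p) * aN p j) := by
    intro p hp
    rw [Finset.mem_range] at hp
    rw [show b + 1 - 1 - p = b - p by omega, show b - (b - p) = p by omega,
      show b + (q + 1) - (b - p) = p + (q + 1) by omega]
    unfold eps
    rw [show p + (q + 1) - (q + 1) = p by omega, show q + 1 - 1 = q by omega]
    have h2 : ∑ j ∈ Finset.range (p + 1), st q (j + 1) * aN p j =
        ∑ j ∈ Finset.range (b + 1), st q (j + 1) * aN p j := by
      symm
      apply alg1_sum_ext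
      · intro i hi
        rw [alg1_aN_zero p i (by omega), mul_zero]
      · omega
    rw [h2, Finset.mul_sum]
    apply Finset.sum_congr rfl
    intro j _
    ring
  rw [Finset.sum_congr rfl h1, Finset.sum_comm]
  have h3 : ∀ j ∈ Finset.range (b + 1), ∑ p ∈ Finset.range (b + 1),
      st q (j + 1) * (W p (b - p) * aN p j) = st q (j + 1) * aN (b + 1) (j + 1) := by
    intro j _
    rw [← Finset.mul_sum, ← alg_T b j]
  rw [Finset.sum_congr rfl h3]
  unfold eta
  rw [if_pos (by omega), show b + (q + 1) - q = b + 1 by omega]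
  rw [Finset.sum_range_succ', alg1_aN_succ_zero, mul_zero, add_zero]

end Pool.Agent.PC
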