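import Mathlib

/-!
Shared definitions for the 23-1-4 / 110 project (MP_80f2b6_co).

* `aN n k` : the target numbers (powered Catalan triangle).
* `st q k` : h_q(1,...,k), i.e. the Stirling number S(k+q,k).
* `eta`, `gam`, `eps`, `W` : numbers derived from them.
* `Av w` : the list `w` avoids the vincular pattern 23-1-4 (2 and 3 adjacent).
* `rm w` : number of right-to-left minima of `w`.
-/

set_option autoImplicit false

namespace Pool.Agent.PC

/-- target numbers -/
def aN : ℕ → ℕ → ℕ
  | 0 => fun k => if k = 0 then 1 else 0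
  | n + 1 => fun k => if k = 0 then 0 else aN n (k - 1) + k * ∑ j ∈ Finset.Icc k n, aN n j

def st : ℕ → ℕ → ℕ
  | 0 => fun _ => 1
  | q + 1 => fun k => ∑ j ∈ Finset.range (k + 1), j * st q j

def tN (n : ℕ) : ℕ := ∑ k ∈ Finset.range (n + 1), aN n k

def eta (n s : ℕ) : ℕ :=
  if s ≤ n then ∑ k ∈ Finset.range (n - s + 1), st s k * aN (n - s) k else 0

def gam (n : ℕ) : ℕ → ℕ
  | 0 => tN n
  | s + 1 => if n = 0 then 0 else eta n s

def W (c n : ℕ) : ℕ := ∑ s ∈ Finset.range (n + 1), gam n s * (s + c - 1).choose s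

/-- for `1 ≤ i ≤ n` : `eps n i = Σ_j st (i-1) (j+1) * aN (n-i) j` -/
def eps (n i : ℕ) : ℕ := ∑ j ∈ Finset.range (n - i + 1), st (i - 1) (j + 1) * aN (n - i) j

/-- avoidance of the vincular pattern 23-1-4 -/
def Av : List ℕ → Prop
  | [] => True
  | [_] => True
  | x :: y :: t => (x < y → t.Pairwise (fun u v => u < x → v ≤ y)) ∧ Av (y :: t)

open Classical in
/-- number of right-to-left minima -/
noncomputable def rm : List ℕ → ℕ
  | [] => 0
  | x :: t => (if ∀ v ∈ t, x < v then 1 else 0) + rm t

open Classical in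
/-- the words (lists without repetition) whose set of letters is `S` -/
noncomputable def Wd (S : Finset ℕ) : Finset (List ℕ) := S.toList.permutations.toFinset

end Pool.Agent.PC
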