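import Pool.Agent.PC.Defs

set_option autoImplicit false

namespace Pool.Agent.PC

/-- `Om s b p = Σ_u eta p (s+u) * C(u+b-1,u)` for `p ≥ 1`, and `Om s b 0 = [s = 0]` -/
def Om (s b p : ℕ) : ℕ :=
  if p = 0 then (if s = 0 then 1 else 0)
  else ∑ u ∈ Finset.range (p + 1), eta p (s + u) * (u + b - 1).choose u

end Pool.Agent.PC
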